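import Pool.Agent.Helper76.GT.St

/-!
# Project GT (MP_b731ff_al), module HAA: return probabilities of the lazy random walk
-/

set_option autoImplicit false

namespace Pool.Agent.Helper51.GT

open Pool.Agent.Helper76.GT Filter
open scoped Pointwise Topology

universe u

section
variable {H : Type u} [Group H]

/-- left translation -/
private noncomputable def lam (s : H) : (H →₀ ℝ) →ₗ[ℝ] (H →₀ ℝ) :=
  (Finsupp.domLCongr (Equiv.mulLeft s)).toLinearMap

private theorem lam_eq (s : H) (u : H →₀ ℝ) : lam s u = Finsupp.equivMapDomain (Equiv.mulLeft s) u := rfl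

private theorem lam_apply (s : H) (u : H →₀ ℝ) (x : H) : lam s u x = u (s⁻¹ * x) := by
  rw [lam_eq, Finsupp.equivMapDomain_apply, Equiv.mulLeft_symm, Equiv.coe_mulLeft]

/-- the inner product -/
private noncomputable def B (u v : H →₀ ℝ) : ℝ := Finsupp.linearCombination ℝ (⇑v) u

private theorem B_eq (u v : H →₀ ℝ) (F : Finset H) (h : u.support ⊆ F) : B u v = ∑ x ∈ F, u x * v x := by
  unfold B
  rw [Finsupp.linearCombination_apply_of_mem_supported (s := F) ℝ]
  · rfl
  · rw [Finsupp.mem_supported]
    exact_mod_cast h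

private theorem B_comm (u v : H →₀ ℝ) : B u v = B v u := by
  classical
  rw [B_eq u v (u.support ∪ v.support) Finset.subset_union_left,
    B_eq v u (u.support ∪ v.support) Finset.subset_union_right]
  exact Finset.sum_congr rfl fun x _ => mul_comm _ _

private theorem B_add_left (u v w : H →₀ ℝ) : B (u + v) w = B u w + B v w := map_add _ _ _

private theorem B_sub_left (u v w : H →₀ ℝ) : B (u - v) w = B u w - B v w := map_sub _ _ _

private theorem B_smul_left (a : ℝ) (u w : H →₀ ℝ) : B (a • u) w = a * B u w := map_smul _ _ _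

private theorem B_sum_left {ι : Type*} (F : Finset ι) (g : ι → H →₀ ℝ) (w : H →₀ ℝ) :
    B (∑ i ∈ F, g i) w = ∑ i ∈ F, B (g i) w := map_sum _ _ _

private theorem B_add_right (u v w : H →₀ ℝ) : B u (v + w) = B u v + B u w := by
  rw [B_comm, B_add_left, B_comm v, B_comm w]

private theorem B_sub_right (u v w : H →₀ ℝ) : B u (v - w) = B u v - B u w := by
  rw [B_comm, B_sub_left, B_comm v, B_comm w]

private theorem B_smul_right (a : ℝ) (u w : H →₀ ℝ) : B u (a • w) = a * B u w := by
  rw [B_comm, B_smul_left, B_comm w]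

private theorem B_sum_right {ι : Type*} (F : Finset ι) (g : ι → H →₀ ℝ) (w : H →₀ ℝ) :
    B w (∑ i ∈ F, g i) = ∑ i ∈ F, B w (g i) := by
  rw [B_comm, B_sum_left]
  exact Finset.sum_congr rfl fun i _ => B_comm _ _

private theorem B_nonneg (u : H →₀ ℝ) : 0 ≤ B u u := by
  rw [B_eq u u u.support subset_rfl]
  exact Finset.sum_nonneg fun x _ => mul_self_nonneg _

private theorem sq_le_B (u : H →₀ ℝ) (x : H) : u x ^ 2 ≤ B u u := by
  classical
  rw [B_eq u u (insert x u.support) (Finset.subset_insert _ _), sq]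
  exact Finset.single_le_sum (f := fun y => u y * u y) (fun y _ => mul_self_nonneg _)
    (Finset.mem_insert_self _ _)

private theorem B_lam (s : H) (u v : H →₀ ℝ) : B (lam s u) v = B u (lam s⁻¹ v) := by
  unfold B
  rw [lam_eq, Finsupp.linearCombination_equivMapDomain]
  congr 2
  funext x
  rw [lam_apply, inv_inv]
  rfl

private theorem lam_inv (s : H) (u : H →₀ ℝ) : lam s⁻¹ (lam s u) = u := by
  ext x
  rw [lam_apply, lam_apply, inv_inv, inv_mul_cancel_left]

private theorem B_lam_lam (s : H) (u : H →₀ ℝ) : B (lam s u) (lam s u) = B u u := by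
  rw [B_lam, lam_inv]

private theorem nrm2_eq (u : H →₀ ℝ) : nrm2 (⇑u) = B u u := by
  unfold nrm2
  rw [B_eq u u u.support subset_rfl, tsum_eq_sum (s := u.support)]
  · exact Finset.sum_congr rfl fun x _ => sq _
  · intro x hx
    rw [Finsupp.notMem_support_iff.1 hx]
    simp

/-- the lazy random walk operator -/
private noncomputable def T (S : Finset H) : (H →₀ ℝ) →ₗ[ℝ] (H →₀ ℝ) :=
  (1 / 2 : ℝ) • (LinearMap.id + (1 / (S.card : ℝ)) • ∑ s ∈ S, lam s)

private theorem T_eq (S : Finset H) (u : H →₀ ℝ) :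
    T S u = (1 / 2 : ℝ) • (u + (1 / (S.card : ℝ)) • ∑ s ∈ S, lam s u) := by
  simp [T]

private theorem B_T (S : Finset H) (u v : H →₀ ℝ) :
    B (T S u) v = 1 / 2 * (B u v + 1 / (S.card : ℝ) * ∑ s ∈ S, B (lam s u) v) := by
  rw [T_eq, B_smul_left, B_add_left, B_smul_left, B_sum_left]

private theorem T_symm {S : Finset H} (hS : Gen S) (u v : H →₀ ℝ) : B (T S u) v = B u (T S v) := by
  rw [B_T, B_comm u (T S v), B_T, B_comm v u]
  congr 3
  refine Finset.sum_nbij' (fun s => s⁻¹) (fun s => s⁻¹) (fun s hs => hS.inv s hs)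
    (fun s hs => hS.inv s hs) (fun s _ => inv_inv s) (fun s _ => inv_inv s) ?_
  intro s _
  rw [B_lam, B_comm]

private theorem card_pos {S : Finset H} (hS : Gen S) : (0 : ℝ) < S.card := by
  exact_mod_cast Finset.card_pos.2 ⟨1, hS.one⟩

private theorem en_eq {S : Finset H} (hS : Gen S) (u : H →₀ ℝ) :
    en S (⇑u) = 4 * S.card * B (u - T S u) u := by
  have hk := card_pos hS
  have h1 : ∀ s ∈ S, nrm2 (fun x => u x - u (s⁻¹ * x)) = 2 * B u u - 2 * B (lam s u) u := by
    intro s _
    have e : (fun x => u x - u (s⁻¹ * x)) = ⇑(u - lam s u) := by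
      funext x
      rw [Finsupp.sub_apply, lam_apply]
    rw [e, nrm2_eq, B_sub_left, B_sub_right, B_sub_right, B_lam_lam, B_comm u (lam s u)]
    ring
  unfold en
  rw [Finset.sum_congr rfl h1, Finset.sum_sub_distrib, Finset.sum_const, nsmul_eq_mul,
    ← Finset.mul_sum, B_sub_left, B_T]
  field_simp
  ring

private theorem lap_eq {S : Finset H} (hS : Gen S) (u : H →₀ ℝ) :
    nrm2 (lap S (⇑u)) = 4 * (S.card : ℝ) ^ 2 * B (u - T S u) (u - T S u) := by
  have hk := card_pos hS
  have e : lap S (⇑u) = ⇑((2 * (S.card : ℝ)) • (u - T S u)) := by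
    funext x
    unfold lap
    rw [Finsupp.smul_apply, Finsupp.sub_apply, T_eq, Finsupp.smul_apply, Finsupp.add_apply,
      Finsupp.smul_apply, Finsupp.finsetSum_apply, Finset.sum_sub_distrib, Finset.sum_const,
      nsmul_eq_mul, Finset.sum_congr rfl fun s _ => lam_apply s u x]
    simp only [smul_eq_mul]
    field_simp
    ring
  rw [e, nrm2_eq, B_smul_left, B_smul_right]
  ring

private theorem T_pos {S : Finset H} (hS : Gen S) (w : H →₀ ℝ) : 0 ≤ B (T S w) w := by
  have hk := card_pos hS
  have h1 : 4 * (S.card : ℝ) * B (T S w) w = ∑ s ∈ S, B (w + lam s w) (w + lam s w) := by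
    have h2 : ∀ s ∈ S, B (w + lam s w) (w + lam s w) = 2 * B w w + 2 * B (lam s w) w := by
      intro s _
      rw [B_add_left, B_add_right, B_add_right, B_lam_lam, B_comm w (lam s w)]
      ring
    rw [Finset.sum_congr rfl h2, Finset.sum_add_distrib, Finset.sum_const, nsmul_eq_mul,
      ← Finset.mul_sum, B_T]
    field_simp
    ring
  have h3 : 0 ≤ 4 * (S.card : ℝ) * B (T S w) w := by
    rw [h1]
    exact Finset.sum_nonneg fun s _ => B_nonneg _
  by_contra hneg
  push Not at hneg
  have := mul_neg_of_pos_of_neg (by positivity : (0 : ℝ) < 4 * S.card) hneg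
  linarith

/-- the distribution after `n` steps -/
private noncomputable def q (S : Finset H) : ℕ → (H →₀ ℝ)
  | 0 => Finsupp.single 1 1
  | n + 1 => T S (q S n)

private theorem q_succ (S : Finset H) (n : ℕ) : q S (n + 1) = T S (q S n) := rfl

/-- the return probability -/
private noncomputable def c (S : Finset H) (n : ℕ) : ℝ := B (q S n) (q S 0)

private theorem c_eq (S : Finset H) (n : ℕ) : c S n = q S n 1 := by
  unfold c
  rw [B_comm, B_eq (q S 0) (q S n) {1}]
  · simp [q]
  · unfold q
    exact Finsupp.support_single_subset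

private theorem B_q {S : Finset H} (hS : Gen S) (i j : ℕ) : B (q S i) (q S j) = c S (i + j) := by
  induction j generalizing i with
  | zero => rfl
  | succ j ih =>
    rw [q_succ, ← T_symm hS, ← q_succ, ih (i + 1)]
    congr 1
    omega

/-- the decrements of the return probabilities -/
private noncomputable def a (S : Finset H) (n : ℕ) : ℝ := c S n - c S (n + 1)

private theorem B1 {S : Finset H} (hS : Gen S) (n : ℕ) :
    B (q S n - T S (q S n)) (q S n) = a S (2 * n) := by
  rw [← q_succ, B_sub_left, B_q hS, B_q hS]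
  unfold a
  have e1 : n + n = 2 * n := by omega
  have e2 : n + 1 + n = 2 * n + 1 := by omega
  rw [e1, e2]

private theorem B2 {S : Finset H} (hS : Gen S) (n : ℕ) :
    B (q S n - T S (q S n)) (q S n - T S (q S n)) = a S (2 * n) - a S (2 * n + 1) := by
  rw [← q_succ, B_sub_left, B_sub_right, B_sub_right, B_q hS, B_q hS, B_q hS, B_q hS]
  unfold a
  have e1 : n + n = 2 * n := by omega
  have e2 : n + (n + 1) = 2 * n + 1 := by omega
  have e3 : n + 1 + n = 2 * n + 1 := by omega
  have e4 : n + 1 + (n + 1) = 2 * n + 1 + 1 := by omega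
  rw [e1, e2, e3, e4]

private theorem B3 {S : Finset H} (hS : Gen S) (n : ℕ) : a S (2 * n + 2) ≤ a S (2 * n + 1) := by
  have h := T_pos hS (q S n - q S (n + 1))
  rw [map_sub, ← q_succ, ← q_succ, B_sub_left, B_sub_right, B_sub_right, B_q hS, B_q hS, B_q hS,
    B_q hS] at h
  unfold a
  have e1 : n + 1 + n = 2 * n + 1 := by omega
  have e2 : n + 1 + (n + 1) = 2 * n + 1 + 1 := by omega
  have e3 : n + 1 + 1 + n = 2 * n + 1 + 1 := by omega
  have e4 : n + 1 + 1 + (n + 1) = 2 * n + 2 + 1 := by omega
  rw [e1, e2, e3, e4] at h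
  have e5 : 2 * n + 1 + 1 = 2 * n + 2 := by omega
  rw [e5] at h ⊢
  linarith

private theorem q_nonneg (S : Finset H) (n : ℕ) (x : H) : 0 ≤ q S n x := by
  induction n generalizing x with
  | zero =>
    classical
    unfold q
    rw [Finsupp.single_apply]
    split_ifs <;> norm_num
  | succ n ih =>
    rw [q_succ, T_eq, Finsupp.smul_apply, Finsupp.add_apply, Finsupp.smul_apply,
      Finsupp.finsetSum_apply]
    simp only [smul_eq_mul]
    have h1 : 0 ≤ ∑ s ∈ S, lam s (q S n) x := Finset.sum_nonneg fun s _ => by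
      rw [lam_apply]
      exact ih _
    have h2 := ih x
    positivity

private theorem q_supp [DecidableEq H] {S : Finset H} (hS : Gen S) (n : ℕ) (x : H) (h : q S n x ≠ 0) :
    x ∈ S ^ n := by
  induction n generalizing x with
  | zero =>
    unfold q at h
    rw [Finsupp.single_apply] at h
    have : (1 : H) = x := by
      by_contra hne
      exact h (if_neg hne)
    rw [← this]
    simp
  | succ n ih =>
    rw [q_succ, T_eq, Finsupp.smul_apply, Finsupp.add_apply, Finsupp.smul_apply,
      Finsupp.finsetSum_apply] at h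
    by_cases h1 : q S n x = 0
    · have h2 : ∑ s ∈ S, lam s (q S n) x ≠ 0 := by
        intro h3
        apply h
        rw [h1, h3]
        simp
      obtain ⟨s, hs, hs2⟩ := Finset.exists_ne_zero_of_sum_ne_zero h2
      rw [lam_apply] at hs2
      have h3 := ih _ hs2
      rw [pow_succ']
      have := Finset.mul_mem_mul hs h3
      rwa [mul_inv_cancel_left] at this
    · exact Finset.pow_subset_pow_right hS.one (Nat.le_succ n) (ih x h1)

/-- the total mass -/
private noncomputable def tot (u : H →₀ ℝ) : ℝ := Finsupp.linearCombination ℝ (fun _ => (1 : ℝ)) u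

private theorem tot_lam (s : H) (u : H →₀ ℝ) : tot (lam s u) = tot u := by
  unfold tot
  rw [lam_eq, Finsupp.linearCombination_equivMapDomain]
  rfl

private theorem tot_q {S : Finset H} (hS : Gen S) (n : ℕ) : tot (q S n) = 1 := by
  induction n with
  | zero =>
    unfold tot q
    simp
  | succ n ih =>
    have hk := card_pos hS
    have h1 : tot (∑ s ∈ S, lam s (q S n)) = S.card := by
      have : tot (∑ s ∈ S, lam s (q S n)) = ∑ s ∈ S, tot (lam s (q S n)) := map_sum _ _ _
      rw [this, Finset.sum_congr rfl fun s _ => (tot_lam s _).trans ih]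
      simp
    have h2 : tot (q S (n + 1)) =
        1 / 2 * (tot (q S n) + 1 / (S.card : ℝ) * tot (∑ s ∈ S, lam s (q S n))) := by
      rw [q_succ, T_eq]
      unfold tot
      rw [map_smul, map_add, map_smul]
      rfl
    rw [h2, h1, ih]
    field_simp
    norm_num

private theorem tot_eq (u : H →₀ ℝ) (F : Finset H) (h : u.support ⊆ F) : tot u = ∑ x ∈ F, u x := by
  unfold tot
  rw [Finsupp.linearCombination_apply_of_mem_supported (s := F) ℝ]
  · simp
  · rw [Finsupp.mem_supported]
    exact_mod_cast h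

private theorem sum_le_one {S : Finset H} (hS : Gen S) (n : ℕ) (F : Finset H) :
    ∑ x ∈ F, q S n x ≤ 1 := by
  classical
  rw [← tot_q hS n, tot_eq (q S n) (F ∪ (q S n).support) Finset.subset_union_right]
  exact Finset.sum_le_sum_of_subset_of_nonneg Finset.subset_union_left
    fun x _ _ => q_nonneg S n x

private theorem en_q {S : Finset H} (hS : Gen S) (n : ℕ) :
    en S (⇑(q S n)) = 4 * S.card * a S (2 * n) := by
  rw [en_eq hS, B1 hS]

private theorem nrm2_le_en {S : Finset H} (u : H →₀ ℝ) {s : H} (hs : s ∈ S) :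
    B (u - lam s u) (u - lam s u) ≤ en S (⇑u) := by
  have h1 : ∀ s, nrm2 (fun x => u x - u (s⁻¹ * x)) = B (u - lam s u) (u - lam s u) := by
    intro s
    have e : (fun x => u x - u (s⁻¹ * x)) = ⇑(u - lam s u) := by
      funext x
      rw [Finsupp.sub_apply, lam_apply]
    rw [e, nrm2_eq]
  unfold en
  rw [Finset.sum_congr rfl fun s _ => h1 s]
  exact Finset.single_le_sum (f := fun s => B (u - lam s u) (u - lam s u))
    (fun s _ => B_nonneg _) hs

/-- translation by a fixed element changes the values by at most a multiple of the root of the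
energy -/
private theorem trans_le {S : Finset H} (hS : Gen S) (g : H) :
    ∃ m : ℕ, ∀ (u : H →₀ ℝ) (y : H), |u (g⁻¹ * y) - u y| ≤ m * Real.sqrt (en S (⇑u)) := by
  have hg : g ∈ Subgroup.closure (S : Set H) := by
    rw [hS.gen]
    exact Subgroup.mem_top g
  refine Subgroup.closure_induction (p := fun g _ => ∃ m : ℕ, ∀ (u : H →₀ ℝ) (y : H),
    |u (g⁻¹ * y) - u y| ≤ m * Real.sqrt (en S (⇑u))) ?_ ?_ ?_ ?_ hg
  · intro s hs
    refine ⟨1, fun u y => ?_⟩
    rw [Nat.cast_one, one_mul]
    apply Real.le_sqrt_of_sq_le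
    rw [sq_abs]
    have h1 := sq_le_B (u - lam s u) y
    rw [Finsupp.sub_apply, lam_apply] at h1
    have h2 := nrm2_le_en u (show s ∈ S from hs)
    nlinarith
  · refine ⟨0, fun u y => ?_⟩
    simp
  · rintro g h _ _ ⟨m, hm⟩ ⟨m', hm'⟩
    refine ⟨m + m', fun u y => ?_⟩
    have h1 := hm u y
    have h2 := hm' u (g⁻¹ * y)
    have e : (g * h)⁻¹ * y = h⁻¹ * (g⁻¹ * y) := by group
    rw [e]
    have h3 := abs_add_le (u (h⁻¹ * (g⁻¹ * y)) - u (g⁻¹ * y)) (u (g⁻¹ * y) - u y)
    rw [sub_add_sub_cancel] at h3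
    push_cast
    linarith
  · rintro g _ ⟨m, hm⟩
    refine ⟨m, fun u y => ?_⟩
    have h1 := hm u (g * y)
    rw [inv_mul_cancel_left, abs_sub_comm] at h1
    rw [inv_inv]
    exact h1

private theorem a_pos [Infinite H] {S : Finset H} (hS : Gen S) (n : ℕ) : 0 < a S (2 * n) := by
  have hk := card_pos hS
  have h0 : 0 ≤ en S (⇑(q S n)) := by
    have h1 := nrm2_le_en (q S n) hS.one
    exact (B_nonneg _).trans h1
  rcases h0.lt_or_eq with h | h
  · rw [en_q hS] at h
    by_contra hneg
    push Not at hneg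
    nlinarith
  · exfalso
    have h1 : ∀ x, q S n x = q S n 1 := by
      intro x
      obtain ⟨m, hm⟩ := trans_le hS x⁻¹
      have h2 := hm (q S n) 1
      rw [← h, Real.sqrt_zero, mul_zero, inv_inv, mul_one] at h2
      have h3 := abs_nonpos_iff.1 h2
      linarith
    obtain ⟨x, hx⟩ := Infinite.exists_notMem_finset (q S n).support
    have h2 : q S n x = 0 := Finsupp.notMem_support_iff.1 hx
    have h3 : q S n = 0 := by
      ext y
      rw [h1 y, ← h1 x, h2]
      rfl
    have h4 := tot_q hS n
    rw [h3] at h4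
    unfold tot at h4
    simp at h4

end

theorem pHAA (H : Type u) [Group H] [DecidableEq H] : HAA H := by
  intro S hS hinf hpoly ε hε
  by_contra hcon
  push Not at hcon
  have hk := card_pos hS
  have hfail : ∀ n, ε * a S (2 * n) < S.card * (a S (2 * n) - a S (2 * n + 1)) := by
    intro n
    have h1 := hcon (⇑(q S n)) (Finsupp.hasFiniteSupport _) (by
      rw [en_q hS]
      have := a_pos hS n
      positivity)
    rw [lap_eq hS, B2 hS, en_q hS] at h1
    have h2 : (4 * (S.card : ℝ)) * (ε * a S (2 * n)) <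
        (4 * S.card) * (S.card * (a S (2 * n) - a S (2 * n + 1))) := by
      calc (4 * (S.card : ℝ)) * (ε * a S (2 * n)) = ε * (4 * S.card * a S (2 * n)) := by ring
        _ < _ := h1
        _ = _ := by ring
    exact lt_of_mul_lt_mul_left h2 (by positivity)
  set ρ : ℝ := 1 - ε / S.card with hρ
  have hstep : ∀ n, a S (2 * n + 1) < ρ * a S (2 * n) := by
    intro n
    have h1 := hfail n
    have h2 : ρ * a S (2 * n) = a S (2 * n) - ε * a S (2 * n) / S.card := by
      rw [hρ]
      ring
    have h3 : ε * a S (2 * n) / S.card < a S (2 * n) - a S (2 * n + 1) := by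
      rw [div_lt_iff₀ hk]
      linarith
    rw [h2]
    linarith
  have hρ1 : ρ < 1 := by
    rw [hρ]
    have : 0 < ε / S.card := by positivity
    linarith
  have hρ0 : 0 < ρ := by
    have h1 := hstep 0
    have h2 := a_pos hS (0 + 1)
    have h3 := B3 hS 0
    have h4 := a_pos hS 0
    by_contra hneg
    push Not at hneg
    have h5 := mul_nonpos_of_nonpos_of_nonneg hneg h4.le
    have e : 2 * (0 + 1) = 2 * 0 + 2 := rfl
    rw [e] at h2
    linarith
  -- geometric decay
  have hdec : ∀ n, a S (2 * n) ≤ a S 0 * ρ ^ n := by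
    intro n
    induction n with
    | zero => simp
    | succ n ih =>
      have h1 := hstep n
      have h2 := B3 hS n
      have e : 2 * (n + 1) = 2 * n + 2 := by ring
      rw [e, pow_succ]
      have h3 := mul_le_mul_of_nonneg_left ih hρ0.le
      nlinarith
  have hodd : ∀ n, a S (2 * n + 1) ≤ a S 0 * ρ ^ n := by
    intro n
    have h1 := hstep n
    have h2 := hdec n
    have h3 := a_pos hS n
    nlinarith
  set D : ℝ := 2 * a S 0 / (1 - ρ) with hD
  have h1ρ : 0 < 1 - ρ := by linarith
  have ha0 : 0 < a S 0 := a_pos hS 0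
  have hDρ : D * (1 - ρ) = 2 * a S 0 := by
    rw [hD]
    field_simp
  have hDpos : 0 < D := by positivity
  -- the differences
  have hdiff : ∀ n m, c S (2 * n) - c S (2 * (n + m)) ≤ D * (ρ ^ n - ρ ^ (n + m)) := by
    intro n m
    induction m with
    | zero => simp
    | succ m ih =>
      have h1 := hdec (n + m)
      have h2 := hodd (n + m)
      have e1 : c S (2 * (n + m)) - c S (2 * (n + (m + 1))) =
          a S (2 * (n + m)) + a S (2 * (n + m) + 1) := by
        unfold a
        have e : 2 * (n + (m + 1)) = 2 * (n + m) + 1 + 1 := by ring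
        rw [e]
        ring
      have e2 : D * (ρ ^ n - ρ ^ (n + (m + 1))) =
          D * (ρ ^ n - ρ ^ (n + m)) + D * (1 - ρ) * ρ ^ (n + m) := by
        rw [← add_assoc, pow_succ]
        ring
      rw [e2, hDρ]
      linarith
  have hapos : ∀ n, 0 ≤ a S n := by
    intro n
    rcases Nat.even_or_odd' n with ⟨m, rfl | rfl⟩
    · exact (a_pos hS m).le
    · have h1 := B3 hS m
      have h2 := a_pos hS (m + 1)
      have e : 2 * (m + 1) = 2 * m + 2 := by ring
      rw [e] at h2
      linarith
  have hanti : Antitone (c S) := antitone_nat_of_succ_le fun n => by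
    have := hapos n
    unfold a at this
    linarith
  -- the return probabilities decay
  have hc : ∀ n, c S (2 * n) ≤ D * ρ ^ n := by
    intro n
    by_contra hneg
    push Not at hneg
    set η : ℝ := c S (2 * n) - D * ρ ^ n with hη
    have hη0 : 0 < η := by linarith
    have hge : ∀ m, η ≤ c S m := by
      intro m
      have h1 := hdiff n m
      have h2 : c S (2 * (n + m)) ≤ c S m := hanti (by omega)
      have h3 : 0 ≤ D * ρ ^ (n + m) := by positivity
      have h4 : D * (ρ ^ n - ρ ^ (n + m)) = D * ρ ^ n - D * ρ ^ (n + m) := by ring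
      linarith
    obtain ⟨N, hN⟩ := exists_nat_gt (1 / η)
    obtain ⟨F, hF⟩ := Infinite.exists_subset_card_eq H N
    choose m hm using fun x : H => trans_le hS x
    have hlim : Tendsto (fun n : ℕ => 1 + (∑ x ∈ F, (m x : ℝ)) *
        Real.sqrt (4 * S.card * (a S 0 * ρ ^ n))) atTop (𝓝 (1 + (∑ x ∈ F, (m x : ℝ)) *
        Real.sqrt (4 * S.card * (a S 0 * 0)))) := by
      apply Tendsto.const_add
      apply Tendsto.const_mul
      apply (Real.continuous_sqrt.tendsto _).comp
      apply Tendsto.const_mul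
      apply Tendsto.const_mul
      exact tendsto_pow_atTop_nhds_zero_of_lt_one hρ0.le hρ1
    have hbound : ∀ n : ℕ, N * η ≤ 1 + (∑ x ∈ F, (m x : ℝ)) *
        Real.sqrt (4 * S.card * (a S 0 * ρ ^ n)) := by
      intro n
      have h1 : ∀ x ∈ F, η ≤ q S n (x⁻¹) + m x * Real.sqrt (4 * S.card * (a S 0 * ρ ^ n)) := by
        intro x _
        have h2 := hm x (q S n) 1
        rw [mul_one, ← c_eq, en_q hS] at h2
        have h3 := hge n
        have h4 := neg_le_of_abs_le h2
        have h5 : Real.sqrt (4 * S.card * a S (2 * n)) ≤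
            Real.sqrt (4 * S.card * (a S 0 * ρ ^ n)) := by
          apply Real.sqrt_le_sqrt
          exact mul_le_mul_of_nonneg_left (hdec n) (by positivity)
        have h6 : (m x : ℝ) * Real.sqrt (4 * S.card * a S (2 * n)) ≤
            m x * Real.sqrt (4 * S.card * (a S 0 * ρ ^ n)) :=
          mul_le_mul_of_nonneg_left h5 (Nat.cast_nonneg _)
        linarith
      have h2 := Finset.sum_le_sum h1
      rw [Finset.sum_const, nsmul_eq_mul, hF, Finset.sum_add_distrib, ← Finset.sum_mul] at h2
      have h3 : ∑ x ∈ F, q S n (x⁻¹) ≤ 1 := by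
        have h4 := sum_le_one hS n (F.image fun x => x⁻¹)
        rwa [Finset.sum_image (fun x _ y _ h => inv_injective h)] at h4
      linarith
    have h5 := ge_of_tendsto' hlim hbound
    rw [mul_zero, mul_zero, Real.sqrt_zero, mul_zero, add_zero] at h5
    rw [div_lt_iff₀ hη0] at hN
    linarith
  -- comparison with the growth
  have hgrow : ∀ n, 1 ≤ ((S ^ n).card : ℝ) * (D * ρ ^ n) := by
    intro n
    have hsub : (q S n).support ⊆ S ^ n := by
      intro x hx
      exact q_supp hS n x (Finsupp.mem_support_iff.1 hx)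
    have h1 := tot_q hS n
    rw [tot_eq _ _ hsub] at h1
    have h2 := sq_sum_le_card_mul_sum_sq (s := S ^ n) (f := fun x => q S n x)
    have h3 : ∑ x ∈ S ^ n, q S n x ^ 2 = c S (2 * n) := by
      have := B_q hS n n
      rw [B_eq _ _ _ hsub] at this
      rw [two_mul, ← this]
      exact Finset.sum_congr rfl fun x _ => sq _
    rw [h1, h3, one_pow] at h2
    exact h2.trans (mul_le_mul_of_nonneg_left (hc n) (Nat.cast_nonneg _))
  obtain ⟨C, d, hCd⟩ := hpoly
  have hlim : Tendsto (fun n : ℕ => (C : ℝ) * D * ((n : ℝ) ^ d * ρ ^ n)) atTop (𝓝 ((C : ℝ) * D * 0)) := by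
    apply Tendsto.const_mul
    exact tendsto_pow_const_mul_const_pow_of_abs_lt_one d (by rwa [abs_of_pos hρ0])
  rw [mul_zero] at hlim
  have hev : ∀ᶠ n : ℕ in atTop, (C : ℝ) * D * ((n : ℝ) ^ d * ρ ^ n) < 1 :=
    hlim.eventually (gt_mem_nhds zero_lt_one)
  obtain ⟨n, hn1, hn2⟩ := (hCd.and_eventually hev).exists
  have h1 := hgrow n
  have h2 : ((S ^ n).card : ℝ) ≤ C * (n : ℝ) ^ d := by exact_mod_cast hn1
  have h3 : ((S ^ n).card : ℝ) * (D * ρ ^ n) ≤ C * (n : ℝ) ^ d * (D * ρ ^ n) :=
    mul_le_mul_of_nonneg_right h2 (by positivity)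
  have h4 : (C : ℝ) * (n : ℝ) ^ d * (D * ρ ^ n) = (C : ℝ) * D * ((n : ℝ) ^ d * ρ ^ n) := by ring
  linarith

end Pool.Agent.Helper51.GT
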