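import Pool.Agent.Helper79.GT.St1

/-!
# Project GT (MP_c2d095_lc), module TRS: transport along an injection (adapted from the module TRN of GS)
-/

set_option autoImplicit false

namespace Pool.Agent.Helper51.GT

open Pool.Agent.Helper79.GT Pool.Agent.Helper79.GS Pool.Agent.Helper19.SK

section

variable {P P' : Type} {f : P → P'}

private theorem mat_tr (hf : Function.Injective f) {E : P → P → Prop} {E' : P' → P' → Prop}
    (hE : ∀ a b, E a b ↔ E' (f a) (f b))
    (hR : ∀ a' b', E' a' b' → (∃ a, f a = a') ∧ ∃ b, f b = b') (m : ℕ) : Mat E m ↔ Mat E' m := by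
  classical
  have hg : Function.Injective (Prod.map f f) := hf.prodMap hf
  constructor
  · rintro ⟨M, hc, h1, h2, h3⟩
    refine ⟨M.image (Prod.map f f), ?_, ?_, ?_, ?_⟩
    · rw [Finset.card_image_of_injective _ hg, hc]
    · intro e he
      obtain ⟨e0, he0, rfl⟩ := Finset.mem_image.1 he
      exact (hE _ _).1 (h1 e0 he0)
    · intro e he e' he' hee
      obtain ⟨e0, he0, rfl⟩ := Finset.mem_image.1 (Finset.mem_coe.1 he)
      obtain ⟨e1, he1, rfl⟩ := Finset.mem_image.1 (Finset.mem_coe.1 he')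
      have h4 : e0.1 = e1.1 := hf hee
      rw [h2 he0 he1 h4]
    · intro e he e' he' hee
      obtain ⟨e0, he0, rfl⟩ := Finset.mem_image.1 (Finset.mem_coe.1 he)
      obtain ⟨e1, he1, rfl⟩ := Finset.mem_image.1 (Finset.mem_coe.1 he')
      have h4 : e0.2 = e1.2 := hf hee
      rw [h3 he0 he1 h4]
  · rintro ⟨M, hc, h1, h2, h3⟩
    have him : (M.preimage (Prod.map f f) hg.injOn).image (Prod.map f f) = M := by
      ext e
      rw [Finset.mem_image]
      constructor
      · rintro ⟨e0, he0, rfl⟩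
        exact Finset.mem_preimage.1 he0
      · intro he
        obtain ⟨⟨a, ha⟩, b, hb⟩ := hR _ _ (h1 e he)
        have hab : Prod.map f f (a, b) = e := Prod.ext ha hb
        exact ⟨(a, b), by rw [Finset.mem_preimage, hab]; exact he, hab⟩
    refine ⟨M.preimage (Prod.map f f) hg.injOn, ?_, ?_, ?_, ?_⟩
    · rw [← hc, ← Finset.card_image_of_injective _ hg, him]
    · intro e he
      exact (hE _ _).2 (h1 _ (Finset.mem_preimage.1 he))
    · intro e he e' he' hee
      have he1 : Prod.map f f e ∈ M := Finset.mem_preimage.1 (Finset.mem_coe.1 he)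
      have he2 : Prod.map f f e' ∈ M := Finset.mem_preimage.1 (Finset.mem_coe.1 he')
      have h4 : (Prod.map f f e).1 = (Prod.map f f e').1 := congrArg f hee
      exact hg (h2 he1 he2 h4)
    · intro e he e' he' hee
      have he1 : Prod.map f f e ∈ M := Finset.mem_preimage.1 (Finset.mem_coe.1 he)
      have he2 : Prod.map f f e' ∈ M := Finset.mem_preimage.1 (Finset.mem_coe.1 he')
      have h4 : (Prod.map f f e).2 = (Prod.map f f e').2 := congrArg f hee
      exact hg (h3 he1 he2 h4)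

private theorem ess_tr (hf : Function.Injective f) {E : P → P → Prop} {E' : P' → P' → Prop}
    (hE : ∀ a b, E a b ↔ E' (f a) (f b))
    (hR : ∀ a' b', E' a' b' → (∃ a, f a = a') ∧ ∃ b, f b = b') (u : P) :
    Ess E u ↔ Ess E' (f u) := by
  have h1 := mat_tr hf hE hR
  have h2 : ∀ m, Mat (del E u) m ↔ Mat (del E' (f u)) m := by
    apply mat_tr hf
    · intro a b
      unfold del
      rw [hE a b, Ne, Ne, hf.eq_iff]
    · intro a' b' h
      exact hR a' b' h.2
  unfold Ess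
  exact exists_congr fun m => and_congr (h1 m) (not_congr (h2 m))

variable {A : Arena P} {A' : Arena P'}

private theorem ahead_tr (hs : ∀ a, A.s a = A'.s (f a)) (c : Bool) (u : P) :
    ahead A c u ↔ ahead A' c (f u) := by
  unfold ahead
  rw [hs u]

private theorem mg_tr (hs : ∀ a, A.s a = A'.s (f a)) (c : Bool) (u : P) :
    mg A c u = mg A' c (f u) := by
  unfold mg
  rw [hs u]

private theorem rv_tr (hmv : ∀ c a b, A.mv c a b ↔ A'.mv c (f a) (f b)) (c : Bool) (u v : P) :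
    rv A c u v ↔ rv A' c (f u) (f v) := by
  unfold rv
  rw [hmv, hmv]

private theorem gr_tr (hf : Function.Injective f) (hmv : ∀ c a b, A.mv c a b ↔ A'.mv c (f a) (f b))
    (hs : ∀ a, A.s a = A'.s (f a)) {EX : Bool → P → Prop} {EX' : Bool → P' → Prop}
    (hEX : ∀ c a, EX c a ↔ EX' c (f a)) {V : Set (Bool × P)} {V' : Set (Bool × P')}
    (hV : ∀ s a, (s, a) ∈ V ↔ (s, f a) ∈ V')
    {X : P → Prop} {X' : P' → Prop} (hX : ∀ a, X a ↔ X' (f a)) (c : Bool) (u y x : P) :
    GrS A EX V c X u y x ↔ GrS A' EX' V' c X' (f u) (f y) (f x) := by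
  unfold GrS
  rw [hf.eq_iff, hV c y, hEX c y, hs y, hs u, rv_tr hmv, hV (!c) x, hEX (!c) x, ahead_tr hs, hX x]

private theorem gr_ran (hran : ∀ c a' b', A'.mv c a' b' → (∃ a, f a = a') ∧ ∃ b, f b = b')
    {EX' : Bool → P' → Prop} {V' : Set (Bool × P')} {X' : P' → Prop} {c : Bool} {u a' b' : P'}
    (h : GrS A' EX' V' c X' u a' b') : (∃ a, f a = a') ∧ ∃ b, f b = b' :=
  hran c a' b' h.2.2.1.1

private theorem xk_tr (hf : Function.Injective f) (hmv : ∀ c a b, A.mv c a b ↔ A'.mv c (f a) (f b))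
    (hran : ∀ c a' b', A'.mv c a' b' → (∃ a, f a = a') ∧ ∃ b, f b = b')
    (hs : ∀ a, A.s a = A'.s (f a)) {EX : Bool → P → Prop} {EX' : Bool → P' → Prop}
    (hEX : ∀ c a, EX c a ↔ EX' c (f a)) {V : Set (Bool × P)} {V' : Set (Bool × P')}
    (hV : ∀ s a, (s, a) ∈ V ↔ (s, f a) ∈ V')
    (c : Bool) : ∀ (k : ℕ) (u : P), XkS A EX V c k u ↔ XkS A' EX' V' c k (f u) := by
  intro k
  induction k with
  | zero => intro u; exact Iff.rfl
  | succ k ih =>
    intro u
    unfold XkS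
    exact or_congr (hEX c u) (ess_tr hf (fun a b => gr_tr hf hmv hs hEX hV ih c u a b)
      (fun a' b' h => gr_ran hran h) u)

private theorem xin_tr (hf : Function.Injective f) (hmv : ∀ c a b, A.mv c a b ↔ A'.mv c (f a) (f b))
    (hran : ∀ c a' b', A'.mv c a' b' → (∃ a, f a = a') ∧ ∃ b, f b = b')
    (hs : ∀ a, A.s a = A'.s (f a)) {EX : Bool → P → Prop} {EX' : Bool → P' → Prop}
    (hEX : ∀ c a, EX c a ↔ EX' c (f a)) {V : Set (Bool × P)} {V' : Set (Bool × P')}
    (hV : ∀ s a, (s, a) ∈ V ↔ (s, f a) ∈ V')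
    (c : Bool) (u : P) : XINS A EX V c u ↔ XINS A' EX' V' c (f u) := by
  unfold XINS
  rw [← mg_tr hs]
  exact xk_tr hf hmv hran hs hEX hV c _ u

private theorem vis_tr (hf : Function.Injective f) {V : Set (Bool × P)} {V' : Set (Bool × P')}
    (hV : ∀ s a, (s, a) ∈ V ↔ (s, f a) ∈ V') (sk c : Bool) (a b : P) :
    ∀ s x, (s, x) ∈ Vis sk V c a b ↔ (s, f x) ∈ Vis sk V' c (f a) (f b) := by
  intro s x
  change ((s, x) ∈ V ∨ (x = a ∧ (sk = true → s = !c)) ∨ (x = b ∧ (sk = true → s = c))) ↔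
    ((s, f x) ∈ V' ∨ (f x = f a ∧ (sk = true → s = !c)) ∨ (f x = f b ∧ (sk = true → s = c)))
  rw [hV s x, hf.eq_iff, hf.eq_iff]

private theorem wst_tr (hf : Function.Injective f) (hmv : ∀ c a b, A.mv c a b ↔ A'.mv c (f a) (f b))
    (hran : ∀ c a' b', A'.mv c a' b' → (∃ a, f a = a') ∧ ∃ b, f b = b')
    (hs : ∀ a, A.s a = A'.s (f a)) {EX : Bool → P → Prop} {EX' : Bool → P' → Prop}
    (hEX : ∀ c a, EX c a ↔ EX' c (f a)) {V : Set (Bool × P)} {V' : Set (Bool × P')}
    (hV : ∀ s a, (s, a) ∈ V ↔ (s, f a) ∈ V')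
    (sk c : Bool) (b : P) : WstS A sk V EX c b ↔ WstS A' sk V' EX' c (f b) := by
  unfold WstS
  by_cases h : ahead A c b
  · rw [if_pos h, if_pos ((ahead_tr hs c b).1 h)]
    refine or_congr (hEX c b) (or_congr (not_congr (xin_tr hf hmv hran hs hEX
      (vis_tr hf hV sk (!c) b b) _ _)) ?_)
    constructor
    · rintro ⟨w, h1, h2, h3, h4⟩
      exact ⟨f w, (rv_tr hmv c b w).1 h1, fun h5 => h2 ((hV _ w).2 h5), fun h5 => h3 (hf h5),
        fun h5 => h4 ((xin_tr hf hmv hran hs hEX (vis_tr hf hV sk (!c) b w) _ _).2 h5)⟩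
    · rintro ⟨w', h1, h2, h3, h4⟩
      obtain ⟨-, w, rfl⟩ := hran _ _ _ h1.1
      exact ⟨w, (rv_tr hmv c b w).2 h1, fun h5 => h2 ((hV _ w).1 h5),
        fun h5 => h3 (congrArg f h5),
        fun h5 => h4 ((xin_tr hf hmv hran hs hEX (vis_tr hf hV sk (!c) b w) _ _).1 h5)⟩
  · rw [if_neg h, if_neg (fun h' => h ((ahead_tr hs c b).2 h'))]
    exact xin_tr hf hmv hran hs hEX (vis_tr hf hV sk c b b) _ _

private theorem ext_tr (hmv : ∀ c a b, A.mv c a b ↔ A'.mv c (f a) (f b))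
    (hran : ∀ c a' b', A'.mv c a' b' → (∃ a, f a = a') ∧ ∃ b, f b = b')
    {V : Set (Bool × P)} {V' : Set (Bool × P')}
    (hV : ∀ s a, (s, a) ∈ V ↔ (s, f a) ∈ V') {W : Bool → P → Prop}
    {W' : Bool → P' → Prop} (hW : ∀ c a, W c a ↔ W' c (f a)) (c : Bool) (u : P) :
    extS A V W c u ↔ extS A' V' W' c (f u) := by
  unfold extS
  constructor
  · rintro ⟨b, h1, h2, h3, h4⟩
    exact ⟨f b, (hmv _ _ _).1 h1, fun h => h2 ((hmv _ _ _).2 h), fun h => h3 ((hV _ _).2 h),
      fun h => h4 ((hW _ _).2 h)⟩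
  · rintro ⟨b', h1, h2, h3, h4⟩
    obtain ⟨-, b, rfl⟩ := hran _ _ _ h1
    exact ⟨b, (hmv _ _ _).2 h1, fun h => h2 ((hmv _ _ _).1 h), fun h => h3 ((hV _ _).1 h),
      fun h => h4 ((hW _ _).1 h)⟩

end

theorem hTRS : StTRS := by
  intro P P' A A' f hf hmv hran hs H₀ H₀' hH sk r
  induction r with
  | zero =>
    intro c b
    exact wst_tr (EX := fun _ _ => False) (EX' := fun _ _ => False) hf hmv hran hs
      (fun _ _ => Iff.rfl) hH sk c b
  | succ r ih =>
    intro c b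
    exact wst_tr hf hmv hran hs (fun c a => ext_tr hmv hran hH ih c a) hH sk c b

end Pool.Agent.Helper51.GT
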